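import Pool.Agent.R266.DrD

set_option autoImplicit false

/-!
# A dragon curve coordinate graph with small Hausdorff dimension (MP_a671ab_an)

For `θ = 2π/3`, i.e. `α = (π - θ)/2 = π/6`, the graph of the limit function `y_θ` has Hausdorff
dimension strictly smaller than `1 - log (cos α) / log 2`.

The stages `yk α k` are those of the problem file: `b α k i` is the entry number `i + 1` of `b_k`,
`gc α k i = sin (b α k i) / (2 cos α)^k`, and `yk α k` is affine on the intervals
`[j / 2^k, (j + 1) / 2^k]`, vanishes at `0` and takes the value `∑_{i < j} gc α k i` at `j / 2^k`.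
-/

open Filter Topology

namespace Pool.Agent.Results.MP_a671ab_an.DragonGraph

open Pool.Agent.R266.Dr

/-- the graph over `[0,1]` of a function, as a subset of the Euclidean plane -/
def graph (f : ℝ → ℝ) : Set (EuclideanSpace ℝ (Fin 2)) :=
  {p | p 0 ∈ Set.Icc (0 : ℝ) 1 ∧ p 1 = f (p 0)}

/-- the Euclidean plane as a product -/
noncomputable def eqv : EuclideanSpace ℝ (Fin 2) ≃L[ℝ] ℝ × ℝ :=
  (EuclideanSpace.equiv (Fin 2) ℝ).trans (ContinuousLinearEquiv.finTwoArrow ℝ ℝ)

theorem eqv_image (f : ℝ → ℝ) : eqv '' graph f = (fun t => (t, f t)) '' Set.Icc (0 : ℝ) 1 := by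
  ext ⟨a, b⟩
  constructor
  · rintro ⟨p, ⟨h1, h2⟩, h3⟩
    have h4 : eqv p = (p 0, p 1) := rfl
    rw [h4] at h3
    refine ⟨p 0, h1, ?_⟩
    show (p 0, f (p 0)) = (a, b)
    rw [← h2]
    exact h3
  · rintro ⟨t, ht, h⟩
    have h5 : t = a := congrArg Prod.fst h
    have h6 : f t = b := congrArg Prod.snd h
    refine ⟨!₂[a, b], ⟨?_, ?_⟩, ?_⟩
    · show a ∈ Set.Icc (0 : ℝ) 1
      rw [← h5]; exact ht
    · show b = f a
      rw [← h5, h6]
    · rfl

theorem dimH_graph (f : ℝ → ℝ) :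
    dimH (graph f) = dimH ((fun t => (t, f t)) '' Set.Icc (0 : ℝ) 1) := by
  rw [← eqv_image, ContinuousLinearEquiv.dimH_image]

/-- For `θ = 2π/3` the stages `y_k` converge uniformly on `[0,1]`, and the graph of the limit has
Hausdorff dimension at most `log 5.33 / log 4`, which is smaller than `1 - log (cos α) / log 2`. -/
theorem result : ∃ θ : ℝ, θ = 2 * Real.pi / 3 ∧ θ ∈ Set.Ioo (Real.pi / 3) (5 * Real.pi / 3) ∧
    ∃ y : ℝ → ℝ, TendstoUniformlyOn (yk ((Real.pi - θ) / 2)) y atTop (Set.Icc 0 1) ∧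
      dimH (graph y) ≤ ENNReal.ofReal (Real.log (533 / 100) / Real.log 4) ∧
      dimH (graph y) < ENNReal.ofReal (1 - Real.log (Real.cos ((Real.pi - θ) / 2)) / Real.log 2) := by
  have hpi := Real.pi_pos
  refine ⟨2 * Real.pi / 3, rfl, ⟨by linarith, by linarith⟩, ?_⟩
  have hα : (Real.pi - 2 * Real.pi / 3) / 2 = Real.pi / 6 := by ring
  rw [hα]
  have h1 : 1 < 2 * Real.cos (Real.pi / 6) := by
    rw [Real.cos_pi_div_six]
    have : (1 : ℝ) < Real.sqrt 3 := by
      rw [Real.lt_sqrt (by norm_num)]; norm_num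
    linarith
  obtain ⟨y, hy⟩ := exists_limit h1
  refine ⟨y, hy, ?_⟩
  have h2 : dimH (graph y) ≤ ENNReal.ofReal (Real.log (533 / 100) / Real.log 4) := by
    rw [dimH_graph]
    exact dim_le (fun t ht => hy.tendsto_at ht)
  refine ⟨h2, lt_of_le_of_lt h2 ?_⟩
  have h3 := s0_lt
  have h4 := s0_pos
  exact (ENNReal.ofReal_lt_ofReal_iff (h4.trans h3)).2 h3

end Pool.Agent.Results.MP_a671ab_an.DragonGraph
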